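import Mathlib
import Pool.Agent.Y877.SxJ

/-! Several independent shifts: the iterated form of `Pool.Agent.Y877.SX.step`. -/

set_option autoImplicit false

namespace Pool.Agent.U918.IS
open Finset Pool.Agent.H373R2.T7 Pool.Agent.Y877.SX

/-- the `j ∈ J` for which all the numbers `f i j ^ e i + M (g0 i + g i)` are prime -/
noncomputable def good {r : ℕ} (e : Fin r → ℕ) (f : Fin r → ℕ → ℕ) (J : Finset ℕ) (M : ℕ)
    (h : Fin r → ℕ) : Finset ℕ :=
  open Classical in J.filter (fun j => ∀ i, (f i j ^ e i + M * h i).Prime)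

theorem good_succ {r : ℕ} (e : Fin (r + 1) → ℕ) (f : Fin (r + 1) → ℕ → ℕ) (J : Finset ℕ) (M : ℕ)
    (h : Fin (r + 1) → ℕ) :
    good e f J M h = good (fun i => e i.succ) (fun i => f i.succ)
      (good (fun _ : Fin 1 => e 0) (fun _ => f 0) J M (fun _ => h 0)) M (fun i => h i.succ) := by
  unfold good
  rw [filter_filter]
  apply filter_congr
  intro j _
  rw [Fin.forall_fin_succ]
  simp only [forall_const]

open Classical in
/-- The iterated form of `step`. -/
theorem multi (r : ℕ) : ∀ (A B C : ℕ) (ε : ℝ), 0 < ε → ε ≤ 1 → ∃ K0 : ℕ, ∀ K1 : ℕ, ∃ n0 : ℕ,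
    ∀ n : ℕ, n0 ≤ n →
    ∀ y : ℕ, K0 * Real.log (Real.log n) ≤ y → y ≤ K1 * Real.log (Real.log n) →
    ∀ e : Fin r → ℕ, (∀ i, e i = 1 ∨ e i = 2) →
    ∀ J : Finset ℕ, (n : ℝ) ≤ J.card * Real.log n ^ A → ∀ f : Fin r → ℕ → ℕ,
    (∀ i, Set.InjOn (f i) J) →
    (∀ i, ∀ j ∈ J, (f i j).Prime ∧ (f i j : ℝ) ≤ n * Real.log n ^ B) →
    ∀ g0 G : Fin r → ℕ, (∀ i, primorial y * (g0 i + G i) ≤ n ^ e i) →
    (∀ i, (n : ℝ) ^ e i ≤ primorial y * G i * Real.log n ^ C) →
    (((Fintype.piFinset (fun i => Icc 1 (G i))).filter (fun g =>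
      ((good e f J (primorial y) (fun i => g0 i + g i)).card : ℝ) <
      (1 - ε) * (J.card / ∏ i, (Vz y * (e i * Real.log n))))).card : ℝ) ≤ ε * ∏ i, (G i : ℝ) := by
  induction r with
  | zero =>
    intro A B C ε hε hε1
    refine ⟨0, fun K1 => ⟨0, fun n _ y _ _ e _ J _ f _ _ g0 G _ _ => ?_⟩⟩
    rw [filter_false_of_mem]
    · simp only [card_empty, Nat.cast_zero]
      have : (0 : ℝ) ≤ ∏ i : Fin 0, (G i : ℝ) := prod_nonneg fun i _ => Nat.cast_nonneg _
      positivity
    · intro g _
      have h1 : good e f J (primorial y) (fun i => g0 i + g i) = J := by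
        unfold good
        exact filter_true_of_mem fun j _ i => i.elim0
      rw [h1, Fin.prod_univ_zero, div_one, not_lt]
      have : (0 : ℝ) ≤ J.card := Nat.cast_nonneg _
      nlinarith
  | succ r ih =>
    intro A B C ε hε hε1
    obtain ⟨Ka, hKa⟩ := step 1 (Or.inl rfl) A B C (ε / 2) (by positivity) (by linarith)
    obtain ⟨Kb, hKb⟩ := step 2 (Or.inr rfl) A B C (ε / 2) (by positivity) (by linarith)
    obtain ⟨Kc, hKc⟩ := ih (A + 2) B C (ε / 2) (by positivity) (by linarith)
    refine ⟨max Ka (max Kb Kc), fun K1 => ?_⟩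
    obtain ⟨na, hna⟩ := hKa K1
    obtain ⟨nb, hnb⟩ := hKb K1
    obtain ⟨nc, hnc⟩ := hKc K1
    obtain ⟨n1, hn1⟩ := ev_L' (max 4 (Real.exp 1))
    refine ⟨max na (max nb (max nc n1)), fun n hn y hy1 hy2 e he J hJ f hi hf g0 G a1 a2 => ?_⟩
    have b1 : na ≤ n := le_trans (le_max_left _ _) hn
    have b2 : nb ≤ n := le_trans (le_trans (le_max_left _ _) (le_max_right _ _)) hn
    have b3 : nc ≤ n :=
      le_trans (le_trans (le_trans (le_max_left _ _) (le_max_right _ _)) (le_max_right _ _)) hn
    have b4 : n1 ≤ n :=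
      le_trans (le_trans (le_trans (le_max_right _ _) (le_max_right _ _)) (le_max_right _ _)) hn
    have hL' := hn1 n b4
    have hL : 4 ≤ Real.log n := (le_max_left _ _).trans hL'
    have hlL : 0 ≤ Real.log (Real.log n) := Real.log_nonneg (by linarith)
    have hL0 : 0 < Real.log n := by linarith
    have hya : (Ka : ℝ) * Real.log (Real.log n) ≤ y :=
      le_trans (mul_le_mul_of_nonneg_right (by exact_mod_cast le_max_left _ _) hlL) hy1
    have hyb : (Kb : ℝ) * Real.log (Real.log n) ≤ y :=
      le_trans (mul_le_mul_of_nonneg_right (by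
        exact_mod_cast le_trans (le_max_left _ _) (le_max_right _ _)) hlL) hy1
    have hyc : (Kc : ℝ) * Real.log (Real.log n) ≤ y :=
      le_trans (mul_le_mul_of_nonneg_right (by
        exact_mod_cast le_trans (le_max_right _ _) (le_max_right _ _)) hlL) hy1
    -- the first condition
    have k1 : (((Icc 1 (G 0)).filter (fun g =>
        ((good (fun _ : Fin 1 => e 0) (fun _ => f 0) J (primorial y) (fun _ => g0 0 + g)).card : ℝ) <
        (1 - ε / 2) * (J.card / (Vz y * (e 0 * Real.log n))))).card : ℝ) ≤ ε / 2 * G 0 := by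
      have h0 : ∀ g : ℕ, good (fun _ : Fin 1 => e 0) (fun _ => f 0) J (primorial y)
          (fun _ => g0 0 + g) = J.filter (fun j => (f 0 j ^ e 0 + primorial y * (g0 0 + g)).Prime) := by
        intro g
        unfold good
        apply filter_congr
        intro j _
        simp only [forall_const]
      simp only [h0]
      have h1 := a1 0
      have h2 := a2 0
      rcases he 0 with h3 | h3
      · rw [h3] at h1 h2 ⊢
        exact hna n b1 y hya hy2 J hJ (f 0) (hi 0) (hf 0) (g0 0) (G 0) h1 h2
      · rw [h3] at h1 h2 ⊢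
        exact hnb n b2 y hyb hy2 J hJ (f 0) (hi 0) (hf 0) (g0 0) (G 0) h1 h2
    have hVy := Vz_pos y
    have hVy1 : Vz y ≤ 1 := Vz_le_one y
    have her : ∀ i, (0 : ℝ) < e i := by
      intro i
      rcases he i with h | h <;> rw [h] <;> norm_num
    obtain ⟨P, hP⟩ : ∃ P : ℕ → (Fin r → ℕ) → Prop, ∀ a b, P a b ↔
        ((good e f J (primorial y) (fun i => g0 i + (Fin.cons a b : Fin (r + 1) → ℕ) i)).card : ℝ) <
        (1 - ε) * (J.card / ∏ i, (Vz y * (e i * Real.log n))) := ⟨_, fun _ _ => Iff.rfl⟩
    have hfub := fub (Icc 1 (G 0)) (Fintype.piFinset (fun i : Fin r => Icc 1 (G i.succ))) P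
      ((Icc 1 (G 0)).filter (fun g =>
        ((good (fun _ : Fin 1 => e 0) (fun _ => f 0) J (primorial y) (fun _ => g0 0 + g)).card : ℝ) <
        (1 - ε / 2) * (J.card / (Vz y * (e 0 * Real.log n))))) (ε / 2) (ε / 2) (by positivity) (by
        refine k1.trans (le_of_eq ?_)
        simp) (by
      intro a ha hab
      obtain ⟨J', hJ'⟩ : ∃ J', J' = good (fun _ : Fin 1 => e 0) (fun _ => f 0) J (primorial y)
        (fun _ => g0 0 + a) := ⟨_, rfl⟩
      have hge : (1 - ε / 2) * (J.card / (Vz y * (e 0 * Real.log n))) ≤ (J'.card : ℝ) := by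
        by_contra hcon
        push Not at hcon
        rw [hJ'] at hcon
        exact hab (mem_filter.2 ⟨ha, hcon⟩)
      have hsubJ : J' ⊆ J := by
        rw [hJ']
        exact filter_subset _ _
      have hd := dens A (e 0) (he 0) n J.card J'.card (Real.log n) (Vz y) (ε / 2) hL hVy hVy1
        (by linarith) (Nat.cast_nonneg _) hJ hge
      have k2 := hnc n b3 y hyc hy2 (fun i => e i.succ) (fun i => he i.succ) J' hd
        (fun i => f i.succ) (fun i => (hi i.succ).mono (by exact_mod_cast hsubJ))
        (fun i j hj => hf i.succ j (hsubJ hj)) (fun i => g0 i.succ) (fun i => G i.succ)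
        (fun i => a1 i.succ) (fun i => a2 i.succ)
      have hcardT : ((Fintype.piFinset (fun i : Fin r => Icc 1 (G i.succ))).card : ℝ) =
          ∏ i : Fin r, (G i.succ : ℝ) := by
        rw [Fintype.card_piFinset]
        push_cast
        apply prod_congr rfl
        intro i _
        simp
      rw [hcardT]
      refine le_trans ?_ k2
      have hsub : (Fintype.piFinset (fun i : Fin r => Icc 1 (G i.succ))).filter (fun b => P a b) ⊆
          (Fintype.piFinset (fun i : Fin r => Icc 1 (G i.succ))).filter (fun g =>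
            ((good (fun i => e i.succ) (fun i => f i.succ) J' (primorial y)
              (fun i => g0 i.succ + g i)).card : ℝ) <
            (1 - ε / 2) * (J'.card / ∏ i : Fin r, (Vz y * (e i.succ * Real.log n)))) := by
        intro b hb
        rw [mem_filter] at hb ⊢
        refine ⟨hb.1, ?_⟩
        have h3 := (hP a b).1 hb.2
        rw [good_succ] at h3
        simp only [Fin.cons_zero, Fin.cons_succ] at h3
        rw [← hJ'] at h3
        refine lt_of_lt_of_le h3 ?_
        obtain ⟨Q, hQ⟩ : ∃ Q : ℝ, Q = ∏ i : Fin r, (Vz y * (e i.succ * Real.log n)) := ⟨_, rfl⟩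
        have hQ0 : 0 < Q := by
          rw [hQ]
          exact prod_pos fun i _ => mul_pos hVy (mul_pos (her _) hL0)
        have he0 := her 0
        rw [Fin.prod_univ_succ, ← hQ]
        have h5 : (1 - ε / 2) * (J.card / (Vz y * (e 0 * Real.log n))) / Q ≤ J'.card / Q :=
          div_le_div_of_nonneg_right hge hQ0.le
        have h6 : (1 - ε / 2) * ((1 - ε / 2) * (J.card / (Vz y * (e 0 * Real.log n))) / Q) ≤
            (1 - ε / 2) * (J'.card / Q) := mul_le_mul_of_nonneg_left h5 (by linarith)
        refine le_trans ?_ h6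
        have h7 : (1 - ε / 2) * ((1 - ε / 2) * ((J.card : ℝ) / (Vz y * (e 0 * Real.log n))) / Q) =
            (1 - ε / 2) ^ 2 * (J.card / ((Vz y * (e 0 * Real.log n)) * Q)) := by
          field_simp
        rw [h7]
        apply mul_le_mul_of_nonneg_right _ (by positivity)
        nlinarith
      exact_mod_cast card_le_card hsub)
    have hinj : (((Fintype.piFinset (fun i => Icc 1 (G i))).filter (fun g =>
        ((good e f J (primorial y) (fun i => g0 i + g i)).card : ℝ) <
        (1 - ε) * (J.card / ∏ i, (Vz y * (e i * Real.log n))))).card : ℝ) ≤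
        (((Icc 1 (G 0)) ×ˢ (Fintype.piFinset (fun i : Fin r => Icc 1 (G i.succ)))).filter
          (fun g => P g.1 g.2)).card := by
      have : ((Fintype.piFinset (fun i => Icc 1 (G i))).filter (fun g =>
        ((good e f J (primorial y) (fun i => g0 i + g i)).card : ℝ) <
        (1 - ε) * (J.card / ∏ i, (Vz y * (e i * Real.log n))))).card ≤
        (((Icc 1 (G 0)) ×ˢ (Fintype.piFinset (fun i : Fin r => Icc 1 (G i.succ)))).filter
          (fun g => P g.1 g.2)).card := by
        refine card_le_card_of_injOn (fun g => (g 0, fun i => g i.succ)) ?_ ?_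
        · intro g hg
          rw [mem_coe, mem_filter, Fintype.mem_piFinset] at hg
          rw [mem_coe, mem_filter, mem_product, Fintype.mem_piFinset]
          refine ⟨⟨hg.1 0, fun i => hg.1 i.succ⟩, ?_⟩
          rw [hP]
          have h1 : (Fin.cons (g 0) (fun i : Fin r => g i.succ) : Fin (r + 1) → ℕ) = g :=
            Fin.cons_self_tail g
          simp only [h1]
          exact hg.2
        · intro g _ g' _ h
          rw [Prod.mk.injEq] at h
          funext i
          refine Fin.cases h.1 (fun i => ?_) i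
          exact congrFun h.2 i
      exact_mod_cast this
    refine hinj.trans (hfub.trans (le_of_eq ?_))
    rw [Fintype.card_piFinset, Fin.prod_univ_succ]
    simp only [Nat.card_Icc, Nat.add_sub_cancel]
    push_cast
    ring

end Pool.Agent.U918.IS
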