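import Mathlib
import Pool.Agent.U918.IS.Multi

/-! Iterated primes: bounds and injectivity. -/

set_option autoImplicit false

namespace Pool.Agent.U918.IS
open Finset Pool.Agent.H373R2.T7 Pool.Agent.Y877.SX

/-- the `k`-th prime, `pr 1 = 2` -/
noncomputable def pr (k : ℕ) : ℕ := Nat.nth Nat.Prime (k - 1)

theorem nth_inj : Function.Injective (Nat.nth Nat.Prime) :=
  Nat.nth_injective Nat.infinite_setOfPred_prime

theorem pr_prime (k : ℕ) : (pr k).Prime := Nat.prime_nth_prime _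

theorem pr_inj {a b : ℕ} (ha : 0 < a) (hb : 0 < b) (h : pr a = pr b) : a = b := by
  have := nth_inj h
  omega

theorem iter_prime {i : ℕ} (hi : 1 ≤ i) (k : ℕ) : (pr^[i] k).Prime := by
  obtain ⟨j, rfl⟩ : ∃ j, i = j + 1 := ⟨i - 1, by omega⟩
  rw [Function.iterate_succ_apply']
  exact pr_prime _

theorem iter_pos (i : ℕ) {k : ℕ} (hk : 0 < k) : 0 < pr^[i] k := by
  cases i with
  | zero => exact hk
  | succ j => exact (iter_prime (by omega) k).pos

theorem iter_inj (i : ℕ) {a b : ℕ} (ha : 0 < a) (hb : 0 < b) (h : pr^[i] a = pr^[i] b) : a = b := by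
  induction i with
  | zero => exact h
  | succ j ih =>
    rw [Function.iterate_succ_apply', Function.iterate_succ_apply'] at h
    exact ih (pr_inj (iter_pos j ha) (iter_pos j hb) h)

/-- iterated primes are not larger than `n` times a power of `log n` -/
theorem iter_bound (i : ℕ) : ∃ B n0 : ℕ, ∀ n : ℕ, n0 ≤ n → ∀ k : ℕ, k < n →
    (pr^[i] k : ℝ) ≤ n * Real.log n ^ B := by
  induction i with
  | zero =>
    refine ⟨0, 0, fun n _ k hk => ?_⟩
    rw [pow_zero, mul_one]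
    exact_mod_cast hk.le
  | succ i ih =>
    obtain ⟨B, n0, h0⟩ := ih
    obtain ⟨n1, h1⟩ := nth_le_log
    obtain ⟨n2, h2⟩ := ev_L' 8
    obtain ⟨n3, h3⟩ := ev_log' B 2
    refine ⟨B + 3, max (max n0 n1) (max n2 (max n3 1)), fun n hn k hk => ?_⟩
    have b0 : n0 ≤ n := le_trans (le_trans (le_max_left _ _) (le_max_left _ _)) hn
    have b1 : n1 ≤ n := le_trans (le_trans (le_max_right _ _) (le_max_left _ _)) hn
    have b2 : n2 ≤ n := le_trans (le_trans (le_max_left _ _) (le_max_right _ _)) hn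
    have b3 : n3 ≤ n :=
      le_trans (le_trans (le_trans (le_max_left _ _) (le_max_right _ _)) (le_max_right _ _)) hn
    have b4 : 1 ≤ n :=
      le_trans (le_trans (le_trans (le_max_right _ _) (le_max_right _ _)) (le_max_right _ _)) hn
    have hL := h2 n b2
    have hs := h3 n b3
    have hq := h0 n b0 k hk
    obtain ⟨q, hqd⟩ : ∃ q, q = pr^[i] k := ⟨_, rfl⟩
    rw [Function.iterate_succ_apply', ← hqd]
    rw [← hqd] at hq
    obtain ⟨L, hLd⟩ : ∃ L, L = Real.log n := ⟨_, rfl⟩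
    rw [← hLd] at hL hs hq ⊢
    have hn1 : (1 : ℝ) ≤ n := by exact_mod_cast b4
    have hn0 : (0 : ℝ) < n := by linarith
    have hL1 : 1 ≤ L ^ B := one_le_pow₀ (by linarith)
    obtain ⟨m, hm⟩ : ∃ m : ℕ, m = max n q := ⟨_, rfl⟩
    have hmn : n ≤ m := by rw [hm]; exact le_max_left _ _
    have hmq : q ≤ m := by rw [hm]; exact le_max_right _ _
    have hmu : (m : ℝ) ≤ n * L ^ B := by
      rw [hm, Nat.cast_max]
      refine max_le ?_ hq
      nlinarith
    have hk1 := h1 m (b1.trans hmn) (q - 1) (by omega)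
    have hm0 : (0 : ℝ) < m := by
      have : (n : ℝ) ≤ m := by exact_mod_cast hmn
      linarith
    have hlm : Real.log m ≤ 2 * L := by
      have h5 : (m : ℝ) ≤ n * n := by
        refine hmu.trans (mul_le_mul_of_nonneg_left ?_ hn0.le)
        have h6 : √(n : ℝ) ≤ n := by
          rw [Real.sqrt_le_left (by linarith)]
          nlinarith
        linarith
      calc Real.log m ≤ Real.log (n * n) := Real.log_le_log hm0 h5
        _ = 2 * L := by rw [Real.log_mul hn0.ne' hn0.ne', hLd]; ring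
    have hlm0 : 0 ≤ Real.log m := Real.log_natCast_nonneg m
    have h5 : Real.log m ^ 2 ≤ (2 * L) ^ 2 := pow_le_pow_left₀ hlm0 hlm 2
    show (Nat.nth Nat.Prime (q - 1) : ℝ) ≤ _
    calc (Nat.nth Nat.Prime (q - 1) : ℝ) ≤ m * Real.log m ^ 2 := hk1
      _ ≤ (n * L ^ B) * (2 * L) ^ 2 := mul_le_mul hmu h5 (by positivity) (by positivity)
      _ = n * (L ^ (B + 2) * 4) := by ring
      _ ≤ n * (L ^ (B + 2) * L) := by gcongr; linarith
      _ = n * L ^ (B + 3) := by ring

/-- a common exponent for finitely many iterates -/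
theorem iter_bound_all (r : ℕ) (a : Fin r → ℕ) : ∃ B n0 : ℕ, ∀ n : ℕ, n0 ≤ n → ∀ k : ℕ, k < n →
    ∀ s, (pr^[a s] k : ℝ) ≤ n * Real.log n ^ B := by
  choose B n0 h using iter_bound
  obtain ⟨n2, h2⟩ := ev_L' 1
  refine ⟨univ.sup (fun s => B (a s)), max n2 (univ.sup (fun s => n0 (a s))), fun n hn k hk s => ?_⟩
  have hL := h2 n (le_trans (le_max_left _ _) hn)
  have h3 : n0 (a s) ≤ n :=
    le_trans (le_trans (le_sup (f := fun s => n0 (a s)) (mem_univ s)) (le_max_right _ _)) hn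
  refine (h (a s) n h3 k hk).trans ?_
  apply mul_le_mul_of_nonneg_left _ (Nat.cast_nonneg _)
  exact pow_le_pow_right₀ hL (le_sup (f := fun s => B (a s)) (mem_univ s))

open Classical in
/-- the theorem -/
theorem main (r : ℕ) (a : Fin r → ℕ) (b : Fin r → Bool) (e : Fin r → ℕ) (ha : ∀ s, 1 ≤ a s)
    (he : ∀ s, e s = 1 ∨ e s = 2) (A C : ℕ) (ε : ℝ) (hε : 0 < ε) (hε1 : ε ≤ 1) :
    ∃ K0 : ℕ, ∀ K1 : ℕ, ∃ n0 : ℕ, ∀ n : ℕ, n0 ≤ n →
    ∀ y : ℕ, K0 * Real.log (Real.log n) ≤ y → y ≤ K1 * Real.log (Real.log n) →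
    ∀ g0 G : Fin r → ℕ, (∀ i, primorial y * (g0 i + G i) ≤ n ^ e i) →
    (∀ i, (n : ℝ) ^ e i ≤ primorial y * G i * Real.log n ^ C) →
    ∀ J : Finset ℕ, J ⊆ Ioo 0 n → (n : ℝ) ≤ J.card * Real.log n ^ A →
    (((Fintype.piFinset (fun i => Icc 1 (G i))).filter (fun g =>
      ((good e (fun i k => pr^[a i] (if b i then n - k else k)) J (primorial y)
        (fun i => g0 i + g i)).card : ℝ) <
      (1 - ε) * (J.card / ∏ i, (Vz y * (e i * Real.log n))))).card : ℝ) ≤ ε * ∏ i, (G i : ℝ) := by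
  obtain ⟨B, n1, h1⟩ := iter_bound_all r a
  obtain ⟨K0, hK0⟩ := multi r A B C ε hε hε1
  refine ⟨K0, fun K1 => ?_⟩
  obtain ⟨n0, hn0⟩ := hK0 K1
  refine ⟨max n0 n1, fun n hn y hy1 hy2 g0 G a1 a2 J hJ hJc => ?_⟩
  refine hn0 n (le_trans (le_max_left _ _) hn) y hy1 hy2 e he J hJc _ ?_ ?_ g0 G a1 a2
  · intro i k hk k' hk' h
    have g1 := mem_Ioo.1 (hJ hk)
    have g2 := mem_Ioo.1 (hJ hk')
    simp only at h
    by_cases hb : b i = true
    · simp only [hb, if_true] at h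
      have := iter_inj (a i) (by omega) (by omega) h
      omega
    · simp only [hb] at h
      exact iter_inj (a i) g1.1 g2.1 h
  · intro i k hk
    have g1 := mem_Ioo.1 (hJ hk)
    refine ⟨iter_prime (ha i) _, ?_⟩
    apply h1 n (le_trans (le_max_right _ _) hn)
    split_ifs
    · omega
    · exact g1.2

end Pool.Agent.U918.IS
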